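import Pool.Agent.H80.SH.Targets

/-!
# Module STP: the potential under a splitting
-/

set_option autoImplicit false

namespace Pool.Agent.H59.SH

open Finset Pool.Agent.H80.SH

theorem stp : T_STP := by
  classical
  intro X ι _ _ V H T S K I Ka hsub hdis hT
  have h1 : ∀ a ∈ I, H * pot V H (Ka a) ≤
      ∑ c ∈ dense V H K, H * (Ka a ∩ V c).card + T * K.card := by
    intro a ha
    unfold pot
    rw [Finset.mul_sum, ← Finset.sum_filter_add_sum_filter_not (dense V H (Ka a))
      (fun c => c ∈ dense V H K)]
    refine add_le_add ?_ ?_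
    · refine Finset.sum_le_sum_of_subset ?_
      intro c hc
      exact (Finset.mem_filter.1 hc).2
    · refine (Finset.sum_le_card_nsmul _ _ K.card ?_).trans ?_
      · intro c hc
        obtain ⟨-, hc2⟩ := Finset.mem_filter.1 hc
        have h2 : H * (K ∩ V c).card < K.card := by
          by_contra hcon
          exact hc2 (Finset.mem_filter.2 ⟨Finset.mem_univ _, not_lt.1 hcon⟩)
        refine le_trans (Nat.mul_le_mul_left H ?_) h2.le
        exact Finset.card_le_card (Finset.inter_subset_inter_right (hsub a ha))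
      · rw [smul_eq_mul]
        exact Nat.mul_le_mul_right _ ((Finset.card_filter_le _ _).trans (hT a ha))
  have h3 : ∀ c, ∑ a ∈ I, H * (Ka a ∩ V c).card ≤ H * (K ∩ V c).card := by
    intro c
    rw [← Finset.mul_sum]
    refine Nat.mul_le_mul_left H ?_
    rw [← Finset.card_biUnion]
    · refine Finset.card_le_card ?_
      intro x hx
      obtain ⟨a, ha, hxa⟩ := Finset.mem_biUnion.1 hx
      obtain ⟨h4, h5⟩ := Finset.mem_inter.1 hxa
      exact Finset.mem_inter.2 ⟨hsub a ha h4, h5⟩
    · intro a ha b hb hab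
      exact (hdis a ha b hb hab).mono Finset.inter_subset_left Finset.inter_subset_left
  calc H * ∑ a ∈ I, pot V H (Ka a) = ∑ a ∈ I, H * pot V H (Ka a) := Finset.mul_sum _ _ _
    _ ≤ ∑ a ∈ I, (∑ c ∈ dense V H K, H * (Ka a ∩ V c).card + T * K.card) :=
        Finset.sum_le_sum h1
    _ = ∑ c ∈ dense V H K, ∑ a ∈ I, H * (Ka a ∩ V c).card + I.card * (T * K.card) := by
        rw [Finset.sum_add_distrib, Finset.sum_const, smul_eq_mul, Finset.sum_comm]
    _ ≤ ∑ c ∈ dense V H K, H * (K ∩ V c).card + I.card * (T * K.card) :=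
        Nat.add_le_add_right (Finset.sum_le_sum fun c _ => h3 c) _
    _ = H * pot V H K + I.card * T * K.card := by
        unfold pot
        rw [Finset.mul_sum, mul_assoc]

end Pool.Agent.H59.SH
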